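import Pool.Agent.Z15.Q.Stm

/-!
Products of classes of divisors and rational classes (task Q_WDG of helper15).
-/

set_option autoImplicit false

namespace Pool.Agent.T2h94.Q15

open Module Pool.Agent.Y90 Pool.Agent.W546.GHC Pool.Agent.H204R3.CM Pool.Agent.Z15.Q

variable {W : Type*} [AddCommGroup W] [Module ℚ W]

omit [AddCommGroup W] [Module ℚ W] in
lemma upd2_0 (m : Fin 2 → W) (z : W) : Function.update m 0 z = ![z, m 1] := by
  funext j
  fin_cases j <;> simp

omit [AddCommGroup W] [Module ℚ W] in
lemma upd2_1 (m : Fin 2 → W) (z : W) : Function.update m 1 z = ![m 0, z] := by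
  funext j
  fin_cases j <;> simp

lemma B_add0 (B : W [⋀^Fin 2]→ₗ[ℚ] ℚ) (x y w : W) : B ![x + y, w] = B ![x, w] + B ![y, w] := by
  have h := B.map_update_add ![x, w] 0 x y
  simpa [upd2_0] using h

lemma B_add1 (B : W [⋀^Fin 2]→ₗ[ℚ] ℚ) (x y w : W) : B ![w, x + y] = B ![w, x] + B ![w, y] := by
  have h := B.map_update_add ![w, x] 1 x y
  simpa [upd2_1] using h

lemma B_smul0 (B : W [⋀^Fin 2]→ₗ[ℚ] ℚ) (c : ℚ) (x w : W) : B ![c • x, w] = c * B ![x, w] := by
  have h := B.map_update_smul ![x, w] 0 c x
  simpa [upd2_0] using h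

lemma B_smul1 (B : W [⋀^Fin 2]→ₗ[ℚ] ℚ) (c : ℚ) (x w : W) : B ![w, c • x] = c * B ![w, x] := by
  have h := B.map_update_smul ![w, x] 1 c x
  simpa [upd2_1] using h

/-- the multilinear map `B ⊗ η` -/
noncomputable def mul2 {i : ℕ} (B : W [⋀^Fin 2]→ₗ[ℚ] ℚ) (η : W [⋀^Fin i]→ₗ[ℚ] ℚ) :
    MultilinearMap ℚ (fun _ : Fin (i + 2) => W) ℚ where
  toFun v := B ![v 0, v 1] * η (fun m => v m.succ.succ)
  map_update_add' := by
    intro inst v j x y
    have hinst : inst = instDecidableEqFin _ := Subsingleton.elim _ _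
    subst hinst
    refine Fin.cases ?_ (fun j => ?_) j
    · have h1 : ∀ z : W, (Function.update v 0 z) 1 = v 1 := fun z =>
        Function.update_of_ne (Fin.ne_of_gt (by simp)) _ _
      have h2 : ∀ z : W, (fun m : Fin i => Function.update v 0 z m.succ.succ) =
        fun m => v m.succ.succ := fun z => by
        funext m; exact Function.update_of_ne (Fin.succ_ne_zero _) _ _
      simp only [h1, h2, Function.update_self, B_add0]
      ring
    · refine Fin.cases ?_ (fun j => ?_) j
      · have h1 : ∀ z : W, (Function.update v (Fin.succ 0) z) 0 = v 0 := fun z =>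
          Function.update_of_ne (Fin.succ_ne_zero _).symm _ _
        have h1' : ∀ z : W, (Function.update v (Fin.succ 0) z) 1 = z := fun z => by
          have : (1 : Fin (i + 2)) = Fin.succ 0 := rfl
          rw [this]; exact Function.update_self _ _ _
        have h2 : ∀ z : W, (fun m : Fin i => Function.update v (Fin.succ 0) z m.succ.succ) =
          fun m => v m.succ.succ := fun z => by
          funext m
          exact Function.update_of_ne (fun h => Fin.succ_ne_zero _ (Fin.succ_injective _ h)) _ _
        simp only [h1, h1', h2, B_add1]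
        ring
      · have h1 : ∀ z : W, (Function.update v j.succ.succ z) 0 = v 0 := fun z =>
          Function.update_of_ne (Fin.succ_ne_zero _).symm _ _
        have h1' : ∀ z : W, (Function.update v j.succ.succ z) 1 = v 1 := fun z => by
          have : (1 : Fin (i + 2)) = Fin.succ 0 := rfl
          rw [this]
          exact Function.update_of_ne (fun h => Fin.succ_ne_zero _ (Fin.succ_injective _ h).symm) _ _
        have h2 : ∀ z : W, (fun m : Fin i => Function.update v j.succ.succ z m.succ.succ) =
          Function.update (fun m => v m.succ.succ) j z := fun z => by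
          funext m
          by_cases hm : m = j
          · subst hm; simp
          · rw [Function.update_of_ne hm, Function.update_of_ne]
            exact fun h => hm (Fin.succ_injective _ (Fin.succ_injective _ h))
        simp only [h1, h1', h2, AlternatingMap.map_update_add]
        ring
  map_update_smul' := by
    intro inst v j c x
    have hinst : inst = instDecidableEqFin _ := Subsingleton.elim _ _
    subst hinst
    refine Fin.cases ?_ (fun j => ?_) j
    · have h1 : ∀ z : W, (Function.update v 0 z) 1 = v 1 := fun z =>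
        Function.update_of_ne (Fin.ne_of_gt (by simp)) _ _
      have h2 : ∀ z : W, (fun m : Fin i => Function.update v 0 z m.succ.succ) =
        fun m => v m.succ.succ := fun z => by
        funext m; exact Function.update_of_ne (Fin.succ_ne_zero _) _ _
      simp only [h1, h2, Function.update_self, B_smul0, smul_eq_mul]
      ring
    · refine Fin.cases ?_ (fun j => ?_) j
      · have h1 : ∀ z : W, (Function.update v (Fin.succ 0) z) 0 = v 0 := fun z =>
          Function.update_of_ne (Fin.succ_ne_zero _).symm _ _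
        have h1' : ∀ z : W, (Function.update v (Fin.succ 0) z) 1 = z := fun z => by
          have : (1 : Fin (i + 2)) = Fin.succ 0 := rfl
          rw [this]; exact Function.update_self _ _ _
        have h2 : ∀ z : W, (fun m : Fin i => Function.update v (Fin.succ 0) z m.succ.succ) =
          fun m => v m.succ.succ := fun z => by
          funext m
          exact Function.update_of_ne (fun h => Fin.succ_ne_zero _ (Fin.succ_injective _ h)) _ _
        simp only [h1, h1', h2, B_smul1, smul_eq_mul]
        ring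
      · have h1 : ∀ z : W, (Function.update v j.succ.succ z) 0 = v 0 := fun z =>
          Function.update_of_ne (Fin.succ_ne_zero _).symm _ _
        have h1' : ∀ z : W, (Function.update v j.succ.succ z) 1 = v 1 := fun z => by
          have : (1 : Fin (i + 2)) = Fin.succ 0 := rfl
          rw [this]
          exact Function.update_of_ne (fun h => Fin.succ_ne_zero _ (Fin.succ_injective _ h).symm) _ _
        have h2 : ∀ z : W, (fun m : Fin i => Function.update v j.succ.succ z m.succ.succ) =
          Function.update (fun m => v m.succ.succ) j z := fun z => by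
          funext m
          by_cases hm : m = j
          · subst hm; simp
          · rw [Function.update_of_ne hm, Function.update_of_ne]
            exact fun h => hm (Fin.succ_injective _ (Fin.succ_injective _ h))
        simp only [h1, h1', h2, AlternatingMap.map_update_smul, smul_eq_mul]
        ring

/-- the antisymmetrization of `B ⊗ η` -/
noncomputable def ant {i : ℕ} (B : W [⋀^Fin 2]→ₗ[ℚ] ℚ) (η : W [⋀^Fin i]→ₗ[ℚ] ℚ) :
    W [⋀^Fin (i + 2)]→ₗ[ℚ] ℚ := MultilinearMap.alternatization (mul2 B η)

lemma ant_apply {i : ℕ} (B : W [⋀^Fin 2]→ₗ[ℚ] ℚ) (η : W [⋀^Fin i]→ₗ[ℚ] ℚ)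
    (v : Fin (i + 2) → W) : ant B η v = ∑ σ : Equiv.Perm (Fin (i + 2)),
      ((Equiv.Perm.sign σ : ℤ) : ℚ) * (B ![v (σ 0), v (σ 1)] * η (fun m => v (σ m.succ.succ))) := by
  rw [ant, MultilinearMap.alternatization_apply]
  refine Finset.sum_congr rfl fun σ _ => ?_
  rw [MultilinearMap.domDomCongr_apply, Units.smul_def, zsmul_eq_mul]
  rfl

/-- the permutation `1 ⊕ τ` -/
def ext2 {i : ℕ} (τ : Equiv.Perm (Fin i)) : Equiv.Perm (Fin (i + 2)) :=
  Equiv.Perm.decomposeFin.symm (0, Equiv.Perm.decomposeFin.symm (0, τ))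

lemma ext2_zero {i : ℕ} (τ : Equiv.Perm (Fin i)) : ext2 τ 0 = 0 := by
  simp [ext2]

lemma ext2_one {i : ℕ} (τ : Equiv.Perm (Fin i)) : ext2 τ 1 = 1 := by
  have : (1 : Fin (i + 2)) = Fin.succ 0 := rfl
  rw [ext2, this, Equiv.Perm.decomposeFin_symm_apply_succ]
  simp

lemma ext2_ss {i : ℕ} (τ : Equiv.Perm (Fin i)) (m : Fin i) :
    ext2 τ m.succ.succ = (τ m).succ.succ := by
  rw [ext2, Equiv.Perm.decomposeFin_symm_apply_succ]
  simp

lemma ext2_sign {i : ℕ} (τ : Equiv.Perm (Fin i)) :
    Equiv.Perm.sign (ext2 τ) = Equiv.Perm.sign τ := by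
  simp [ext2]

lemma ant_main {i : ℕ} (B : W [⋀^Fin 2]→ₗ[ℚ] ℚ) (η : W [⋀^Fin i]→ₗ[ℚ] ℚ)
    (F : (Fin i → W) → ℚ) (h : ∀ u, η u = ∑ τ : Equiv.Perm (Fin i),
      ((Equiv.Perm.sign τ : ℤ) : ℚ) * F (fun m => u (τ m))) (v : Fin (i + 2) → W) :
    ant B η v = (i.factorial : ℚ) * ∑ σ : Equiv.Perm (Fin (i + 2)),
      ((Equiv.Perm.sign σ : ℤ) : ℚ) * (B ![v (σ 0), v (σ 1)] * F (fun m => v (σ m.succ.succ))) := by
  set G : Equiv.Perm (Fin (i + 2)) → ℚ := fun σ =>
    ((Equiv.Perm.sign σ : ℤ) : ℚ) * (B ![v (σ 0), v (σ 1)] * F (fun m => v (σ m.succ.succ))) with hG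
  have h1 : ant B η v = ∑ τ : Equiv.Perm (Fin i), ∑ σ : Equiv.Perm (Fin (i + 2)),
      G (σ * ext2 τ) := by
    rw [ant_apply, Finset.sum_comm]
    refine Finset.sum_congr rfl fun σ _ => ?_
    rw [h, Finset.mul_sum, Finset.mul_sum]
    refine Finset.sum_congr rfl fun τ _ => ?_
    simp only [hG, Equiv.Perm.mul_apply, ext2_zero, ext2_one, ext2_ss, Equiv.Perm.sign_mul,
      ext2_sign, Units.val_mul, Int.cast_mul]
    ring
  have h2 : ∀ τ : Equiv.Perm (Fin i), ∑ σ : Equiv.Perm (Fin (i + 2)), G (σ * ext2 τ) =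
      ∑ σ, G σ := fun τ => Equiv.sum_comp (Equiv.mulRight (ext2 τ)) G
  rw [h1, Finset.sum_congr rfl fun τ _ => h2 τ, Finset.sum_const, nsmul_eq_mul,
    Finset.card_univ, Fintype.card_perm, Fintype.card_fin]

/-- the positions of the factors of the longer product -/
def pos {i c k : ℕ} (e : (Fin c × Fin 2) ⊕ Fin k ≃ Fin i) :
    (Fin (c + 1) × Fin 2) ⊕ Fin k → Fin (i + 2)
  | Sum.inl (s, x) => Fin.cases (motive := fun _ => Fin (i + 2)) (if x = 0 then 0 else 1)
      (fun s => (e (Sum.inl (s, x))).succ.succ) s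
  | Sum.inr r => (e (Sum.inr r)).succ.succ

lemma pos_bij {i c k : ℕ} (e : (Fin c × Fin 2) ⊕ Fin k ≃ Fin i) : Function.Bijective (pos e) := by
  have hc : Fintype.card ((Fin (c + 1) × Fin 2) ⊕ Fin k) = Fintype.card (Fin (i + 2)) := by
    have := Fintype.card_congr e
    simp only [Fintype.card_sum, Fintype.card_prod, Fintype.card_fin] at this ⊢
    omega
  refine (Fintype.bijective_iff_surjective_and_card _).2 ⟨fun y => ?_, hc⟩
  refine Fin.cases ?_ (fun y => ?_) y
  · exact ⟨Sum.inl (0, 0), rfl⟩
  · refine Fin.cases ?_ (fun y => ?_) y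
    · exact ⟨Sum.inl (0, 1), rfl⟩
    · obtain ⟨x, hx⟩ := e.surjective y
      rcases x with ⟨s, x⟩ | r
      · exact ⟨Sum.inl (s.succ, x), by simp [pos, hx]⟩
      · exact ⟨Sum.inr r, by simp [pos, hx]⟩

theorem t_Q_WDG : Q_WDG := by
  intro X i
  constructor
  · rw [eq_top_iff]
    intro f _
    apply Submodule.subset_span
    refine ⟨i, (Equiv.emptySum (Fin 0 × Fin 2) (Fin i)), fun s => s.elim0,
      ((i.factorial : ℚ)⁻¹) • f, fun s => s.elim0, fun v => ?_⟩
    have h : ∀ σ : Equiv.Perm (Fin i), (Equiv.Perm.sign σ : ℤ) *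
      ((∏ s : Fin 0, (0 : ℚ)) * (((i.factorial : ℚ)⁻¹) • f) (fun r => v (σ r))) =
        (i.factorial : ℚ)⁻¹ * f v := by
      intro σ
      have h0 : f (fun r => v (σ r)) = (Equiv.Perm.sign σ : ℤ) * f v := by
        have := f.map_perm v σ
        rw [Units.smul_def, zsmul_eq_mul] at this
        exact this
      simp only [AlternatingMap.smul_apply, h0, smul_eq_mul, Finset.univ_eq_empty,
        Finset.prod_empty, one_mul]
      have h1 : ((Equiv.Perm.sign σ : ℤ) : ℚ) * ((Equiv.Perm.sign σ : ℤ) : ℚ) = 1 := by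
        rw [← Int.cast_mul, ← Units.val_mul, Int.units_mul_self]; simp
      linear_combination ((i.factorial : ℚ)⁻¹ * f v) * h1
    have hf : (i.factorial : ℚ) ≠ 0 := by exact_mod_cast Nat.factorial_ne_zero i
    rw [Finset.sum_congr rfl fun σ _ => ?_, Finset.sum_const, nsmul_eq_mul, Finset.card_univ,
      Fintype.card_perm, Fintype.card_fin, ← mul_assoc, mul_inv_cancel₀ hf, one_mul]
    rw [← h σ]
    simp
  · intro c B hB η hη
    refine ⟨ant B η, ?_, fun v => ant_apply B η v⟩
    induction hη using Submodule.span_induction with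
    | mem η hη =>
      obtain ⟨k, e, B', η', hB', hη⟩ := hη
      have hm := ant_main B η (fun u => (∏ s, B' s ![u (e (Sum.inl (s, 0))),
        u (e (Sum.inl (s, 1)))]) * η' (fun r => u (e (Sum.inr r)))) hη
      have hf : (i.factorial : ℚ) ≠ 0 := by exact_mod_cast Nat.factorial_ne_zero i
      have h2 : ((i.factorial : ℚ)⁻¹) • ant B η ∈ divisorProducts X.per (i + 2) (c + 1) := by
        refine ⟨k, Equiv.ofBijective (pos e) (pos_bij e), Fin.cons B B', η', ?_, fun v => ?_⟩
        · intro s
          refine Fin.cases ?_ (fun s => ?_) s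
          · simpa using hB
          · simpa using hB' s
        · rw [AlternatingMap.smul_apply, hm, smul_eq_mul, ← mul_assoc, inv_mul_cancel₀ hf, one_mul]
          refine Finset.sum_congr rfl fun σ _ => ?_
          rw [Fin.prod_univ_succ]
          simp only [Equiv.ofBijective_apply, pos, Fin.cons_zero, Fin.cons_succ, Fin.cases_zero,
            Fin.cases_succ, if_true, one_ne_zero, if_false]
          ring
      have h3 : ant B η = (i.factorial : ℚ) • (((i.factorial : ℚ)⁻¹) • ant B η) := by
        rw [smul_smul, mul_inv_cancel₀ hf, one_smul]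
      rw [h3]
      exact Submodule.smul_mem _ _ (Submodule.subset_span h2)
    | zero =>
      have : ant B (0 : X.H [⋀^Fin i]→ₗ[ℚ] ℚ) = 0 := by
        ext v; rw [ant_apply]; simp
      rw [this]; exact Submodule.zero_mem _
    | add x y _ _ hx hy =>
      have : ant B (x + y) = ant B x + ant B y := by
        ext v
        rw [AlternatingMap.add_apply, ant_apply, ant_apply, ant_apply, ← Finset.sum_add_distrib]
        refine Finset.sum_congr rfl fun σ _ => ?_
        rw [AlternatingMap.add_apply]; ring
      rw [this]; exact Submodule.add_mem _ hx hy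
    | smul q x _ hx =>
      have : ant B (q • x) = q • ant B x := by
        ext v
        rw [AlternatingMap.smul_apply, ant_apply, ant_apply, smul_eq_mul, Finset.mul_sum]
        refine Finset.sum_congr rfl fun σ _ => ?_
        rw [AlternatingMap.smul_apply, smul_eq_mul]; ring
      rw [this]; exact Submodule.smul_mem _ _ hx

end Pool.Agent.T2h94.Q15
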